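import Pool.Agent.E8helper11.GS.Stm

set_option autoImplicit false

open Filter Topology
open scoped Classical

namespace Pool.Agent.E8helper74.GS

open N0ef6d136 Pool.Agent.E8helper11.GS

theorem lam_nonneg (m : ℕ → ℕ) (k : ℕ) : 0 ≤ lam m k := by
  unfold lam
  positivity

theorem Ms_mono (m : ℕ → ℕ) : Monotone (Ms m) := by
  intro a b h
  unfold Ms
  exact Finset.sum_le_sum_of_subset (Finset.range_mono h)

theorem prod_bound (m u : ℕ → ℕ) (B : ℕ → Finset ℕ) (hu : StrictMono u) (hB : ∀ k, B k ⊆ Cb k)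
    (hpos : Pos m u) (hpot : Pot m B) (κ : ℕ → ℕ) (hκ : ∀ i, u i ∈ B (κ i))
    (j a : ℕ) (hj : 1 ≤ j) (ha : a < 4 ^ j) (H : Finset ℕ)
    (hH : ∀ i ∈ H, j ≤ i ^ 2 ∧ Hit j a (u i)) :
    ∏ i ∈ H, (1 + lam m (κ i)) ≤ 15 * (4 : ℝ) ^ j * (j : ℝ) ^ 2 := by
  have hlt : ∀ i, i < Ms m (κ i + 1) := by
    intro i
    have h1 := hB _ (hκ i)
    unfold Cb at h1
    rw [Finset.mem_filter, Finset.mem_Ico] at h1
    exact (hpos i (κ i + 1)).1 h1.1.2
  refine le_trans ?_ (hpot j a (H.sup κ + 1) hj ha)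
  have hmap : ∀ i ∈ H, κ i ∈ Finset.range (H.sup κ + 1) := fun i hi =>
    Finset.mem_range.2 (Nat.lt_succ_of_le (Finset.le_sup hi))
  rw [← Finset.prod_fiberwise_of_maps_to hmap]
  refine Finset.prod_le_prod (fun k _ => Finset.prod_nonneg fun i _ => ?_) fun k _ => ?_
  · linarith [lam_nonneg m (κ i)]
  have h1 : ∏ i ∈ H with κ i = k, (1 + lam m (κ i)) =
      (1 + lam m k) ^ (H.filter (fun i => κ i = k)).card := by
    rw [Finset.prod_congr rfl (g := fun _ => 1 + lam m k) fun i hi => by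
      rw [(Finset.mem_filter.1 hi).2]]
    rw [Finset.prod_const]
  rw [h1]
  have hlam : (1 : ℝ) ≤ 1 + lam m k := by linarith [lam_nonneg m k]
  rcases Finset.eq_empty_or_nonempty (H.filter (fun i => κ i = k)) with h0 | ⟨i, hi⟩
  · rw [h0, Finset.card_empty, pow_zero]
    split_ifs
    · exact one_le_pow₀ hlam
    · exact le_rfl
  · obtain ⟨hi1, hi2⟩ := Finset.mem_filter.1 hi
    have h2 : j < (Ms m (k + 1)) ^ 2 := by
      refine lt_of_le_of_lt (hH i hi1).1 ?_
      have := hlt i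
      rw [hi2] at this
      exact Nat.pow_lt_pow_left this (by norm_num)
    rw [if_pos h2]
    refine pow_le_pow_right₀ hlam ?_
    refine Finset.card_le_card_of_injOn u ?_ (hu.injective.injOn)
    intro i' hi'
    rw [Finset.mem_coe, Finset.mem_filter] at hi'
    rw [Finset.mem_coe, Finset.mem_filter]
    refine ⟨?_, (hH i' hi'.1).2⟩
    have := hκ i'
    rwa [hi'.2] at this

theorem ev_log (η : ℝ) (hη : 0 < η) :
    ∀ᶠ j : ℕ in atTop, Real.log 15 + (j : ℝ) * Real.log 4 + 2 * Real.log j ≤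
      (1 + η) * (((j : ℝ) - 1) * Real.log 4) := by
  have h4 : 0 < Real.log 4 := Real.log_pos (by norm_num)
  have h1 : (fun x : ℝ => Real.log x) =o[atTop] fun x => x := Real.isLittleO_log_id_atTop
  have h2 := (h1.comp_tendsto tendsto_natCast_atTop_atTop).def (c := η * Real.log 4 / 4) (by positivity)
  have h3 : ∀ᶠ j : ℕ in atTop, (2 * (Real.log 15 + (1 + η) * Real.log 4) / (η * Real.log 4)) ≤ (j : ℝ) :=
    tendsto_natCast_atTop_atTop.eventually_ge_atTop _
  filter_upwards [h2, h3, eventually_ge_atTop 1] with j hj1 hj2 hj3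
  have hj0 : (1 : ℝ) ≤ j := by exact_mod_cast hj3
  simp only [Function.comp_apply, Real.norm_eq_abs] at hj1
  rw [abs_of_nonneg (Real.log_nonneg hj0), abs_of_nonneg (by linarith : (0 : ℝ) ≤ j)] at hj1
  rw [div_le_iff₀ (by positivity)] at hj2
  nlinarith

theorem t_HITS : S_HITS := by
  intro hcnt hreg m u B hu hu2 hB hex hpos hsub hlo hpot hlam hHT δ hδ
  choose κ hκ using hex
  set η : ℝ := min (δ / 6) (1 / 3) with hη
  have hη0 : 0 < η := lt_min (by positivity) (by norm_num)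
  have hη1 : η ≤ δ / 6 := min_le_left _ _
  have hη2 : η ≤ 1 / 3 := min_le_right _ _
  have h4 : 0 < Real.log 4 := Real.log_pos (by norm_num)
  obtain ⟨K0, hK0⟩ := eventually_atTop.1 (hlam η hη0)
  filter_upwards [ev_log η hη0, hHT (2 / δ + 1), eventually_ge_atTop 1,
    eventually_ge_atTop ((Ms m K0) ^ 2)] with j hlog ht hj1 hjK x hx1 hx2 a ha H hH
  have hj0 : (1 : ℝ) ≤ j := by exact_mod_cast hj1
  have hx0 : 1 ≤ x := by
    by_contra h
    have : x = 0 := by omega
    subst this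
    have : 0 < 4 ^ j := by positivity
    omega
  have hlogx : ((j : ℝ) - 1) * Real.log 4 ≤ Real.log x := by
    have h1 : ((4 : ℝ) ^ j) ≤ 4 * x := by exact_mod_cast hx1
    have hxp : (0 : ℝ) < x := by exact_mod_cast hx0
    have h2 := Real.log_le_log (by positivity) h1
    rw [Real.log_pow, Real.log_mul (by norm_num) hxp.ne'] at h2
    linarith
  have hlt : ∀ i, i < Ms m (κ i + 1) := by
    intro i
    have h1 := hB _ (hκ i)
    unfold Cb at h1
    rw [Finset.mem_filter, Finset.mem_Ico] at h1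
    exact (hpos i (κ i + 1)).1 h1.1.2
  have hbig : ∀ i ∈ H, K0 ≤ κ i := by
    intro i hi
    by_contra h
    have h1 : Ms m (κ i + 1) ≤ Ms m K0 := Ms_mono m (by omega)
    have h2 : i ^ 2 < (Ms m K0) ^ 2 := Nat.pow_lt_pow_left ((hlt i).trans_le h1) (by norm_num)
    have h3 := (hH i hi).1
    omega
  have hprod := prod_bound m u B hu hB hpos hpot κ hκ j a hj1 ha H hH
  have hlog1 : ∑ i ∈ H, Real.log (1 + lam m (κ i)) ≤
      Real.log 15 + (j : ℝ) * Real.log 4 + 2 * Real.log j := by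
    rw [← Real.log_prod (fun i _ => by linarith [lam_nonneg m (κ i)])]
    have h0 : 0 < ∏ i ∈ H, (1 + lam m (κ i)) :=
      Finset.prod_pos fun i _ => by linarith [lam_nonneg m (κ i)]
    refine (Real.log_le_log h0 hprod).trans (le_of_eq ?_)
    rw [Real.log_mul (by positivity) (by positivity), Real.log_mul (by norm_num) (by positivity),
      Real.log_pow, Real.log_pow]
    push_cast
    ring
  have hlog2 : (1 - η) * Real.log ((∏ i ∈ H, u i : ℕ) : ℝ) ≤
      ∑ i ∈ H, Real.log (1 + lam m (κ i)) := by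
    rw [Nat.cast_prod, Real.log_prod (fun i _ => by
      have := hu2 i
      positivity), Finset.mul_sum]
    refine Finset.sum_le_sum fun i hi => ?_
    have h1 := hB _ (hκ i)
    unfold Cb at h1
    rw [Finset.mem_filter, Finset.mem_Ico] at h1
    have hup : (0 : ℝ) < u i := by
      have := hu2 i
      positivity
    have h2 : Real.log (u i) ≤ ((κ i : ℝ) + 1) * Real.log 4 := by
      have h3 : (u i : ℝ) ≤ (4 : ℝ) ^ (κ i + 1) := by exact_mod_cast h1.1.2.le
      have h4 := Real.log_le_log hup h3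
      rw [Real.log_pow] at h4
      push_cast at h4
      exact h4
    have h5 := hK0 (κ i) (hbig i hi)
    have h6 := Real.log_le_log (by positivity) h5
    rw [Real.log_rpow (by norm_num)] at h6
    have h7 : (1 - η) * Real.log (u i) ≤ (1 - η) * (((κ i : ℝ) + 1) * Real.log 4) :=
      mul_le_mul_of_nonneg_left h2 (by linarith)
    linarith
  have hy : Real.log ((∏ i ∈ H, u i : ℕ) : ℝ) ≤ (1 + 3 * η) * Real.log x := by
    have h1 : (1 - η) * Real.log ((∏ i ∈ H, u i : ℕ) : ℝ) ≤ (1 + η) * Real.log x := by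
      refine (hlog2.trans hlog1).trans (hlog.trans ?_)
      exact mul_le_mul_of_nonneg_left hlogx (by linarith)
    have hlx : 0 ≤ Real.log x := Real.log_nonneg (by exact_mod_cast hx0)
    have h2 : (1 + η) ≤ (1 - η) * (1 + 3 * η) := by nlinarith
    have h3 : (1 - η) * Real.log ((∏ i ∈ H, u i : ℕ) : ℝ) ≤
        (1 - η) * ((1 + 3 * η) * Real.log x) := by
      refine h1.trans ?_
      rw [← mul_assoc]
      exact mul_le_mul_of_nonneg_right h2 hlx
    exact le_of_mul_le_mul_left h3 (by linarith)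
  have h5 := hcnt u hu hu2 H (∏ i ∈ H, u i) le_rfl
  have h6 := hreg u hu hu2 x (∏ i ∈ H, u i) (3 * η) (by positivity) hx0 hy
  have h7 : (H.card : ℝ) ≤ (t u (∏ i ∈ H, u i) : ℝ) := by exact_mod_cast h5
  have h8 : (2 / δ + 1) ≤ (t u x : ℝ) := by
    refine le_trans ?_ (ht x hx1)
    have : (1 : ℝ) ≤ Real.sqrt j := by
      rw [Real.one_le_sqrt]
      exact hj0
    have h9 : 0 < 2 / δ + 1 := by positivity
    nlinarith
  have h9 : 1 + δ / 2 ≤ δ / 2 * (t u x : ℝ) := by
    have h10 : δ / 2 * (2 / δ + 1) ≤ δ / 2 * (t u x : ℝ) :=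
      mul_le_mul_of_nonneg_left h8 (by positivity)
    have h11 : δ / 2 * (2 / δ + 1) = 1 + δ / 2 := by field_simp
    linarith
  have ht0 : (0 : ℝ) ≤ (t u x : ℝ) := Nat.cast_nonneg _
  nlinarith

end Pool.Agent.E8helper74.GS
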